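import Pool.Agent.R753.HS.D
import Pool.Agent.R753.HS.S

set_option autoImplicit false

/-!
# MP_eba1ef_gt: hulls of few flat or smooth sets; bodies whose extreme points lie in few flats

Let `K` be a convex body in `ℝ^n` which is the convex hull of compact convex sets `F_1, ..., F_k` of
arbitrary dimensions `d_i` and in arbitrary position, and let `c` be the least number of translates
of the (relative) interior which cover a compact convex set.  Then

  `c(K) ≤ c(F_1) + ... + c(F_k)`.

So `K` satisfies the conjecture if the `F_i` satisfy it (in their affine hulls) and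
`∑ 2^{d_i} ≤ 2^n`.  If the `F_i` are smooth (relatively to their affine hulls; for instance balls
or ellipsoids of any dimensions, segments, points) then `c(K) ≤ ∑ (d_i + 1)`; so the conjecture holds
for the hulls of at most `2^n / (n + 1)` smooth sets.  With the bounds `1, 2, 4, 13` in dimensions `0, 1, 2, 3` and
`3 · 2^d d log (2d² + 2d + 1)` for all convex bodies in `ℝ^d` (starting files) we have
unconditionally: `c(K) ≤ 2^n` for all convex bodies in `ℝ^n` whose extreme points lie in `2^(n-2)`
planes, and `c(K) < 2^n` for all convex bodies in `ℝ^n` whose extreme points lie in at most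
`2^(n-m) / (4 m²)` flats of dimension at most `m`, for instance in `n^a` flats of
dimension at most `n - (a + 2) log₂ n - 2`.  No symmetry is assumed.

Proof. Let `b_i` be a relative interior point of `F_i`, and let `x = ∑ λ_j x_j`, `x_j ∈ F_j`, be a
point of `K`, `λ_i ≥ 1/k`.  Let `t` be a translation vector of `F_i` such that `x_i - t` is in the
relative interior of `F_i`, with a uniform gain.  We move `x` by `-t/(4k) + η (∑_j b_j - k b_i)`, with
a fixed small `η > 0`: in `λ_j x_j + η b_j`, `j ≠ i`, the new weight is `λ_j + η > 0`, and the point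
of `F_j` is a relative interior point; the negative terms `- t/(4k) - (k-1) η b_i` are compensated by
the gain in `F_i`.  The new point is a convex combination with positive weights of relative interior
points of all the `F_j`, thus it is an interior point of `K`.  If the extreme points of `K` lie in
the flats `H_i` then `K` is the convex hull of the sets `K ∩ H_i`.  A smooth body in `ℝ^d` is
illuminated by the directions of the vertices of a simplex with centroid `0`.
(This hand-in replaces `HullsOfTwoSets` and `HullsOfFlatSets`.)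
-/

namespace Pool.Agent.Results.MP_eba1ef_gt.HullsFlatOrSmooth

open Pool.Agent.R753

/-- `ℝ^n`. -/
abbrev E (n : ℕ) := EuclideanSpace ℝ (Fin n)

/-- Convex bodies in `ℝ^n`: compact convex sets with interior points. -/
def IsBody {n : ℕ} (K : Set (E n)) : Prop :=
  Convex ℝ K ∧ IsCompact K ∧ (interior K).Nonempty

/-- `Covered N K` means that `K ⊆ ℝ^n` is covered by at most `N` translates of its interior, i.e.
`c(K) ≤ N`. -/
def Covered {n : ℕ} (N : ℕ) (K : Set (E n)) : Prop :=
  ∃ T : Finset (E n), T.card ≤ N ∧ K ⊆ ⋃ t ∈ T, (fun x => t + x) '' interior K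

/-- Affine maps from `ℝ^d` to `ℝ^n`. -/
def IsAffine {d n : ℕ} (f : E d → E n) : Prop :=
  ∀ (x y : E d) (s : ℝ), f (s • x + (1 - s) • y) = s • f x + (1 - s) • f y

/-- Smooth convex sets in `ℝ^d`: the outer normal at every point of the boundary is unique up to a
positive factor. -/
def IsSmooth {d : ℕ} (C : Set (E d)) : Prop :=
  ∀ x ∈ C, ∀ u v : E d, u ≠ 0 → v ≠ 0 → (∀ y ∈ C, inner ℝ u y ≤ inner ℝ u x) →
    (∀ y ∈ C, inner ℝ v y ≤ inner ℝ v x) → ∃ c : ℝ, 0 < c ∧ v = c • u

/-- The bound `2^d` for `d ≤ 2`, `13` for `d = 3` and `3 · 2^d · d · log (2d² + 2d + 1)` for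
`d ≥ 4`. -/
noncomputable def beta (d : ℕ) : ℝ :=
  if d ≤ 2 then 2 ^ d else if d = 3 then 13 else
    3 * 2 ^ d * (d * Real.log (2 * d ^ 2 + 2 * d + 1))

lemma exists_affine {d n : ℕ} {f : E d → E n} (h : IsAffine f) :
    ∃ A : E d →ᵃ[ℝ] E n, ∀ x, A x = f x := by
  have hs : ∀ (s : ℝ) (x : E d), f (s • x) = s • f x + (1 - s) • f 0 := by
    intro s x
    have := h x 0 s
    rwa [smul_zero, add_zero] at this
  have ha : ∀ x y : E d, f (x + y) = f x + f y - f 0 := by
    intro x y
    have h1 := hs 2 ((1 / 2 : ℝ) • x + (1 - 1 / 2 : ℝ) • y)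
    rw [h x y (1 / 2)] at h1
    have h2 : (2 : ℝ) • ((1 / 2 : ℝ) • x + (1 - 1 / 2 : ℝ) • y) = x + y := by module
    rw [h2] at h1
    rw [h1]
    module
  let L : E d →ₗ[ℝ] E n :=
    { toFun := fun x => f x - f 0
      map_add' := fun x y => by rw [ha]; abel
      map_smul' := fun s x => by
        rw [hs, RingHom.id_apply]
        module }
  refine ⟨{ toFun := f, linear := L, map_vadd' := fun p v => ?_ }, fun x => rfl⟩
  show f (v + p) = (f v - f 0) + f p
  rw [ha]
  abel

/-- **Hulls of few flat or smooth sets.** Let `K` be a convex body in `ℝ^n`, and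
let `A i : ℝ^(d i) → ℝ^n`, `i < k`, be affine maps (injective or not).
(1) Let `C i ⊆ ℝ^(d i)` be convex bodies and `K` the convex hull of the sets `A i (C i)`.  (a) If
`c(C i) ≤ N i` for all `i` then `c(K) ≤ ∑ N i`.  (b) If all the `C i` are smooth then
`c(K) ≤ ∑ (d i + 1)`.
(2) Let all extreme points of `K` lie in the union of the flats `A i (ℝ^(d i))`.  (a) If
`∑ beta (d i) < N + 1`, where `beta d = 1, 2, 4, 13` for `d = 0, 1, 2, 3` and
`beta d = 3 · 2^d · d · log (2d² + 2d + 1)` for `d ≥ 4`, then `c(K) ≤ N`.  (b) If `d i ≤ m` for all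
`i`, `2 ≤ m`, and `4 k m² 2^m ≤ 2^n` then `c(K) < 2^n`. -/
theorem result (n k : ℕ) (K : Set (E n)) (hK : IsBody K)
    (d : Fin k → ℕ) (A : ∀ i, E (d i) → E n) (hA : ∀ i, IsAffine (A i)) :
    (∀ C : ∀ i, Set (E (d i)), (∀ i, IsBody (C i)) → K = convexHull ℝ (⋃ i, A i '' C i) →
      (∀ N : Fin k → ℕ, (∀ i, Covered (N i) (C i)) → Covered (∑ i, N i) K) ∧
      ((∀ i, IsSmooth (C i)) → Covered (∑ i, (d i + 1)) K)) ∧
    (K.extremePoints ℝ ⊆ ⋃ i, Set.range (A i) →
      (∀ N : ℕ, ∑ i, beta (d i) < N + 1 → Covered N K) ∧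
      (∀ m : ℕ, 2 ≤ m → (∀ i, d i ≤ m) → 4 * k * m ^ 2 * 2 ^ m ≤ 2 ^ n →
        Covered (2 ^ n - 1) K)) := by
  choose A' hA' using fun i => exists_affine (hA i)
  have eA : ∀ i, A i = A' i := fun i => funext fun x => (hA' i x).symm
  obtain ⟨hc, hk, hi⟩ := hK
  refine ⟨fun C hC hKC => ?_, fun hex => ?_⟩
  · have hK' : K = convexHull ℝ (⋃ i, A' i '' C i) := by
      rw [hKC]
      refine congrArg _ (Set.iUnion_congr fun i => ?_)
      rw [eA i]
    have r := (HS.hulls A' C (fun i => (hC i).1) (fun i => (hC i).2.1) (fun i => (hC i).2.2) hK'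
      hi).2.2
    exact ⟨r, fun hs => r _ fun i =>
      HS.smooth_cover (hC i).1 (hC i).2.1 (hC i).2.2 (hs i)⟩
  · have hex' : K.extremePoints ℝ ⊆ ⋃ i, Set.range (A' i) := by
      refine hex.trans (Set.iUnion_mono fun i => ?_)
      rw [eA i]
    have key : ∀ N : ℕ, ∑ i, beta (d i) < N + 1 → Covered N K :=
      fun N hN => HS.extreme hc hk hi d A' hex' N hN
    refine ⟨key, fun m hm hd hkm => key _ ?_⟩
    have hk0 : k ≠ 0 := by
      rintro rfl
      obtain ⟨x, hx⟩ := hk.extremePoints_nonempty (hi.mono interior_subset)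
      have := hex hx
      simp at this
    have h1 : ∑ i : Fin k, beta (d i) < ∑ i : Fin k, (4 * (m : ℝ) ^ 2 * 2 ^ m) := by
      have hne : (Finset.univ : Finset (Fin k)).Nonempty :=
        ⟨⟨0, Nat.pos_of_ne_zero hk0⟩, Finset.mem_univ _⟩
      exact Finset.sum_lt_sum_of_nonempty hne fun i _ => HS.beta_lt hm (hd i)
    rw [Finset.sum_const, Finset.card_univ, Fintype.card_fin, nsmul_eq_mul] at h1
    have h2 : (4 * k * m ^ 2 * 2 ^ m : ℝ) ≤ 2 ^ n := by exact_mod_cast hkm
    have h3 : ((2 ^ n - 1 : ℕ) : ℝ) = 2 ^ n - 1 := by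
      rw [Nat.cast_sub Nat.one_le_two_pow]
      push_cast
      ring
    rw [h3]
    linarith

end Pool.Agent.Results.MP_eba1ef_gt.HullsFlatOrSmooth
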