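import Pool.Agent.R753.Sums

set_option autoImplicit false

/-!
# MP_eba1ef_gt: arbitrary unconditional sums of convex bodies, under the Kraft inequality

Let `C_j` be convex bodies in `ℝ^(d_j)`, `j = 1, …, k`, with `0` in the interior, and let `g_j` be
the gauge (Minkowski functional) of `C_j`.  For a convex set `M` in `ℝ^k` put
`K = {x : (g_1 (x_1), …, g_k (x_k)) ∈ M}`; if `M` is the unit ball of an unconditional norm this is
the unit ball of the corresponding sum.  Bounds `c(K) ≤ ∏ c(C_j)` for all unconditional `M` would
contain the conjecture for all bodies symmetric with respect to the coordinate hyperplanes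
(`C_j = [-1, 1]`), which is open in high dimension.

We prove: if `c(C_j) ≤ N_j` and `∑ 1 / N_j ≤ 1`, then `c(K) ≤ ∏ N_j`, for every number `k` of
summands and every unconditional `M`.  In particular (`N_j = 2^(d_j)`), if all `C_j` satisfy the
conjecture and the dimensions satisfy the Kraft inequality `∑ 2^(-d_j) ≤ 1`, then every
unconditional sum of the `C_j` satisfies the conjecture; this applies for instance if all
`d_j ≥ log_2 k`.

Proof: let `v_c`, `c < N_j`, be the translation vectors of `C_j`.  The directions are
`(a_j(c) v_(c_j))_j`, one for each tuple `c` of indices, where `a_j(c)` is a power of a small `δ`.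
For the direction `c` to be good at `x`, it is sufficient that `c_j` is the index required by `x_j`
for all `j` in the set `S` of the coordinates where `x_j` is not small, and that all coordinates
outside of `S` have smaller weights `a_j(c)` than those in `S`.  Partial choices (a set `S` and
indices on `S`) form a ranked poset.  By Hall's theorem and `∑ 1 / N_j ≤ 1`, each level of it is
matched into the next one, by moves which add one coordinate to `S`.  The resulting chains end at
the tuples `c`, and the chain which ends at `c` defines the order of the weights of `c`.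
-/

namespace Pool.Agent.Results.MP_eba1ef_gt.KraftSums

open Pool.Agent.R753

/-- `Covered N K` means that `K` is covered by at most `N` translates of its interior, i.e.
`c(K) ≤ N`. -/
def Covered {V : Type*} [TopologicalSpace V] [Add V] (N : ℕ) (K : Set V) : Prop :=
  ∃ T : Finset V, T.card ≤ N ∧ K ⊆ ⋃ t ∈ T, (fun x => t + x) '' interior K

/-- `M` is solid: if `x ∈ M` and `y i` lies between `0` and `x i` for all `i`, then `y ∈ M`. -/
def Solid {k : ℕ} (M : Set (Fin k → ℝ)) : Prop :=
  ∀ x ∈ M, ∀ y : Fin k → ℝ, (∀ i, y i ∈ Set.uIcc 0 (x i)) → y ∈ M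

/-- Let `C j ⊆ ℝ^(d j)`, `j < k`, be convex bodies with `0` in the interior, covered by at most
`N j` translates of their interiors, with `∑ 1 / N j ≤ 1`.  Let `M ⊆ ℝ^k` be a closed convex solid
neighbourhood of `0`. If the set `K` of the `x` such that the vector of the gauges `g_j (x_j)` is in
`M` is bounded, then `K` is a convex body and it is covered by at most `∏ N j` translates of its
interior. -/
theorem result (k : ℕ) (d : Fin k → ℕ) (C : ∀ j, Set (EuclideanSpace ℝ (Fin (d j))))
    (hC : ∀ j, Convex ℝ (C j)) (hCk : ∀ j, IsCompact (C j)) (hC0 : ∀ j, 0 ∈ interior (C j))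
    (N : Fin k → ℕ) (hcov : ∀ j, Covered (N j) (C j)) (hN : ∑ j, (1 : ℝ) / N j ≤ 1)
    (M : Set (Fin k → ℝ)) (hM : IsClosed M) (hMc : Convex ℝ M) (hM0 : 0 ∈ interior M)
    (hsol : Solid M) (K : Set (∀ j, EuclideanSpace ℝ (Fin (d j))))
    (hK : K = {x | (fun j => gauge (C j) (x j)) ∈ M}) (hKb : Bornology.IsBounded K) :
    Convex ℝ K ∧ IsCompact K ∧ 0 ∈ interior K ∧ Covered (∏ j, N j) K :=
  kraft C hC hCk hC0 N hN hcov M hMc hM hM0 hsol K hK hKb

end Pool.Agent.Results.MP_eba1ef_gt.KraftSums
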