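import Pool.Agent.R753.Mono
import Pool.Agent.R753.Corner
import Pool.Agent.R753.SJ.F

set_option autoImplicit false

/-!
# MP_eba1ef_gt: monotone fibrations, with the equality case of convex corners

Let `K ⊆ ℝ^k × ℝ^m` be a convex body such that `x ≥ 0` (coordinatewise) for all `(x, y) ∈ K`, and
`(x', y) ∈ K` whenever `(x, y) ∈ K` and `0 ≤ x' ≤ x`.  Let `K₀ = {y : (0, y) ∈ K}` be the
section over `0`.  Then `c(K) ≤ 2^k c(K₀)`.  No symmetry is assumed.  So, if `K₀` satisfies the
conjecture, then `K` satisfies it; this is true unconditionally for `m ≤ 2`, that is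
`c(K) ≤ 2^(k+m)`.  For `m = 0` (convex corners, or anti-blocking bodies, in `ℝ^k`) we have
equality, `c(K) = 2^k`, only for the boxes.

Proof: by compactness there is `ρ > 0` such that for every `y ∈ K₀` some translation vector `t` of
`K₀` satisfies `((ρ, …, ρ), y - t) ∈ int K`.  Let `(x, y) ∈ K`, and let `S` be the set of the `i`
with `x_i ≥ ρ / 2`.  We move by `ε (-2 R)` in the coordinates of `S`, where `R` is a bound for `x`,
by `+ε ρ / 4` in the other ones, and by `-ε t` in `ℝ^m`.  The new point has positive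
coordinates `x_i`, and it is below the point `(1 - ε) (x, y) + ε ((ρ, …, ρ), y - t)` of `int K`.
(This hand-in replaces `MonotoneFibrations` and `ConvexCorners`.)
-/

namespace Pool.Agent.Results.MP_eba1ef_gt.MonotoneBodies

/-- `Covered N K` means that `K` is covered by at most `N` translates of its interior, i.e.
`c(K) ≤ N`. -/
def Covered {V : Type*} [TopologicalSpace V] [Add V] (N : ℕ) (K : Set V) : Prop :=
  ∃ T : Finset V, T.card ≤ N ∧ K ⊆ ⋃ t ∈ T, (fun x => t + x) '' interior K

/-- **Monotone bodies.** Let `K ⊆ ℝ^k × ℝ^m` be a convex body contained in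
`{(x, y) : x ≥ 0}`, which contains with `(x, y)` all points `(x', y)` with `0 ≤ x' ≤ x`.
(1) If the section `{y : (0, y) ∈ K}` is covered by at most `N` translates of its interior (in
`ℝ^m`), then `K` is covered by at most `2 ^ k * N` translates of its interior.
(2) If `m ≤ 2` then `c(K) ≤ 2 ^ (k + m)`.
(3) If `m = 0` then `c(K) ≤ 2 ^ k - 1` if and only if `K` is not a box. -/
theorem result (k m : ℕ) (K : Set ((Fin k → ℝ) × EuclideanSpace ℝ (Fin m)))
    (hK : Convex ℝ K) (hKc : IsCompact K) (hKi : (interior K).Nonempty)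
    (hpos : ∀ x y, (x, y) ∈ K → ∀ i, 0 ≤ x i)
    (hmono : ∀ x y, (x, y) ∈ K → ∀ x' : Fin k → ℝ, (∀ i, 0 ≤ x' i ∧ x' i ≤ x i) → (x', y) ∈ K) :
    (∀ N : ℕ, Covered N {y : EuclideanSpace ℝ (Fin m) | ((0 : Fin k → ℝ), y) ∈ K} →
      Covered (2 ^ k * N) K) ∧
    (m ≤ 2 → Covered (2 ^ (k + m)) K) ∧
    (m = 0 → (Covered (2 ^ k - 1) K ↔
      ¬ ∃ h : Fin k → ℝ, K = {p | ∀ i, 0 ≤ p.1 i ∧ p.1 i ≤ h i})) := by
  have key : ∀ N : ℕ, Covered N {y : EuclideanSpace ℝ (Fin m) | ((0 : Fin k → ℝ), y) ∈ K} →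
      Covered (2 ^ k * N) K := fun N hN =>
    Pool.Agent.R753.Mono.fib hK hKc hKi (fun p hp => hpos p.1 p.2 hp)
      (fun p hp x' h1 h2 => hmono p.1 p.2 hp x' fun i => ⟨h1 i, h2 i⟩) hN
  refine ⟨key, fun hm => ?_, ?_⟩
  · rw [pow_add]
    refine key _ ?_
    refine Pool.Agent.R753.SJ.cover_le_two (V := EuclideanSpace ℝ (Fin m)) (by simp) hm ?_ ?_ ?_
    · intro y hy z hz a b ha hb hab
      have h := hK hy hz ha hb hab
      have e : a • ((0 : Fin k → ℝ), y) + b • ((0 : Fin k → ℝ), z) =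
          ((0 : Fin k → ℝ), a • y + b • z) := by
        simp
      rw [e] at h
      exact h
    · have hcl : IsClosed {y : EuclideanSpace ℝ (Fin m) | ((0 : Fin k → ℝ), y) ∈ K} :=
        hKc.isClosed.preimage (by fun_prop)
      exact (hKc.image continuous_snd).of_isClosed_subset hcl fun y hy => ⟨(0, y), hy, rfl⟩
    · obtain ⟨⟨a, b⟩, hab⟩ := hKi
      refine ⟨b, mem_interior.2 ⟨(fun y => (a, y)) ⁻¹' interior K, ?_,
        isOpen_interior.preimage (by fun_prop), hab⟩⟩
      intro y hy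
      have hy' : (a, y) ∈ K := interior_subset (s := K) hy
      exact hmono a y hy' 0 fun i => ⟨le_rfl, hpos a y hy' i⟩
  · rintro rfl
    let e : ((Fin k → ℝ) × EuclideanSpace ℝ (Fin 0)) ≃L[ℝ] (Fin k → ℝ) :=
      ContinuousLinearEquiv.equivOfInverse (ContinuousLinearMap.fst ℝ _ _)
        (ContinuousLinearMap.inl ℝ _ _) (fun p => Prod.ext rfl (Subsingleton.elim _ _))
        (fun x => rfl)
    have hmem : ∀ x, x ∈ e '' K ↔ (x, (0 : EuclideanSpace ℝ (Fin 0))) ∈ K := by
      intro x
      constructor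
      · rintro ⟨⟨a, b⟩, hab, rfl⟩
        have : b = 0 := Subsingleton.elim _ _
        rw [this] at hab
        exact hab
      · intro hx
        exact ⟨_, hx, rfl⟩
    have hint : interior (e '' K) = e '' interior K := (e.toHomeomorph.image_interior K).symm
    have hi : (interior (e '' K)).Nonempty := by rw [hint]; exact hKi.image _
    obtain ⟨h1, h2⟩ := Pool.Agent.R753.Corner.cover (K := e '' K)
      (hK.linear_image e.toLinearEquiv.toLinearMap) (hKc.image e.continuous) hi
      (fun x hx => hpos x 0 ((hmem x).1 hx))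
      (fun x hx y h1 h2 => (hmem y).2 (hmono x 0 ((hmem x).1 hx) y fun i => ⟨h1 i, h2 i⟩))
    constructor
    · rintro ⟨T, hT, hcov⟩ ⟨h, hbox⟩
      have hbox' : e '' K = {x | ∀ i, 0 ≤ x i ∧ x i ≤ h i} := by
        ext x
        rw [hmem, hbox]
        rfl
      have h3 := Pool.Agent.R753.Corner.box hi hbox' (T.image e) (by
        rintro _ ⟨p, hp, rfl⟩
        obtain ⟨t, ht, q, hq, hqe⟩ := Set.mem_iUnion₂.1 (hcov hp)
        refine Set.mem_iUnion₂.2 ⟨e t, Finset.mem_image_of_mem _ ht, e q, ?_, ?_⟩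
        · rw [hint]; exact ⟨q, hq, rfl⟩
        · show e t + e q = e p
          rw [← map_add]
          exact congrArg e hqe)
      have h5 : (T.image e).card ≤ T.card := Finset.card_image_le
      have h4 : 0 < 2 ^ k := by positivity
      omega
    · intro hnb
      refine Pool.Agent.R753.SJ.cover_equiv e K _ (h2 ?_)
      rintro ⟨h, hbox⟩
      refine hnb ⟨h, ?_⟩
      ext ⟨x, y⟩
      have hy : y = 0 := Subsingleton.elim _ _
      subst hy
      rw [← hmem, hbox]
      rfl

end Pool.Agent.Results.MP_eba1ef_gt.MonotoneBodies
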