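import Pool.Agent.R753.Three

set_option autoImplicit false

/-!
# MP_eba1ef_gt: arbitrary unconditional sums of three convex bodies

Let `C_0`, `C_1`, `C_2` be convex bodies in `ℝ^(d_j)` with `0` in the interior, and let `g_j` be
the gauge (Minkowski functional) of `C_j`.  Let `M ⊆ ℝ^3` be a closed convex solid neighbourhood
of `0` and `K = {x : (g_0 (x_0), g_1 (x_1), g_2 (x_2)) ∈ M}`; if `M` is the unit ball of an
unconditional norm this is the unit ball of the corresponding sum.  We prove that
`c(K) ≤ N_0 N_1 N_2` if `c(C_j) ≤ N_j` and `N_j ≥ 2`.  So any unconditional sum of three convex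
bodies which satisfy the conjecture satisfies the conjecture, without any condition on the
dimensions or on `M`.  (For `C_j = [-1, 1]` these are the bodies in `ℝ^3` symmetric about the
coordinate planes.)

Proof: let `v_c`, `c < N_j`, be the translation vectors of `C_j`. We use the directions
`(a_j(c) v_(c_j))_j`, where the weights `a_j(c)` are of three different orders of magnitude.  One
would like to have, for every set `S` of coordinates and all indices on `S`, an extension `c` whose
weights on `S` are larger than the other weights; but this is impossible by counting (there are 12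
conditions with `|S| = 2` and only 8 sign patterns).  Let `x` be a point where exactly the coordinate
`x_z` is small. If the weight of `z` is the intermediate one, between the large weight of `t` and the
small weight of `l`, the direction is still good, provided that `M` has no corner at the maximum of
the `l`-th coordinate in the `(l, z)`-plane, or that `g_l (x_l)` is not maximal, if the three weights
are chosen in this order and depending on `M`.  The bad case (for both `l ≠ z`) can only happen for
one coordinate `z₀`; with this information the orders of the weights can be chosen for the 8 sign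
patterns such that all points are illuminated.
-/

namespace Pool.Agent.Results.MP_eba1ef_gt.ThreeBodySums

open Pool.Agent.R753

/-- `Covered N K` means that `K` is covered by at most `N` translates of its interior, i.e.
`c(K) ≤ N`. -/
def Covered {V : Type*} [TopologicalSpace V] [Add V] (N : ℕ) (K : Set V) : Prop :=
  ∃ T : Finset V, T.card ≤ N ∧ K ⊆ ⋃ t ∈ T, (fun x => t + x) '' interior K

/-- `M` is solid: if `x ∈ M` and `y i` lies between `0` and `x i` for all `i`, then `y ∈ M`. -/
def Solid (M : Set (Fin 3 → ℝ)) : Prop :=
  ∀ x ∈ M, ∀ y : Fin 3 → ℝ, (∀ i, y i ∈ Set.uIcc 0 (x i)) → y ∈ M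

/-- Let `C j ⊆ ℝ^(d j)`, `j < 3`, be convex bodies with `0` in the interior, covered by at most
`N j` translates of their interiors, `N j ≥ 2`.  Let `M ⊆ ℝ^3` be a closed convex solid
neighbourhood of `0`. If the set `K` of the `x` such that the vector of the gauges `g_j (x_j)` is in
`M` is bounded, then `K` is a convex body and it is covered by at most `N 0 * N 1 * N 2` translates
of its interior. -/
theorem result (d : Fin 3 → ℕ) (C : ∀ j, Set (EuclideanSpace ℝ (Fin (d j))))
    (hC : ∀ j, Convex ℝ (C j)) (hCk : ∀ j, IsCompact (C j)) (hC0 : ∀ j, 0 ∈ interior (C j))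
    (N : Fin 3 → ℕ) (hcov : ∀ j, Covered (N j) (C j)) (hN : ∀ j, 2 ≤ N j)
    (M : Set (Fin 3 → ℝ)) (hM : IsClosed M) (hMc : Convex ℝ M) (hM0 : 0 ∈ interior M)
    (hsol : Solid M) (K : Set (∀ j, EuclideanSpace ℝ (Fin (d j))))
    (hK : K = {x | (fun j => gauge (C j) (x j)) ∈ M}) (hKb : Bornology.IsBounded K) :
    Convex ℝ K ∧ IsCompact K ∧ 0 ∈ interior K ∧ Covered (N 0 * N 1 * N 2) K := by
  obtain ⟨h1, h2, h3, h4⟩ := Three.three C hC hCk hC0 N hN hcov M hMc hM hM0 hsol K hK hKb
  rw [Fin.prod_univ_three] at h4
  exact ⟨h1, h2, h3, h4⟩

end Pool.Agent.Results.MP_eba1ef_gt.ThreeBodySums
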